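import Pool.Agent.W611.RO.Stms

/-!
Project RO, part MONO: a rotation invariant `u(w) = τ log (δ + |Ψ(w)|²)` satisfies `u(0) ≤ u(1)`.
-/

set_option autoImplicit false
open scoped ComplexConjugate InnerProductSpace Topology
open Filter MeasureTheory NormedSpace

namespace Pool.Agent.W116.RO.Mono
open Pool.Agent.H712R5.BO
open Pool.Agent.W611.RO

section

variable {A : Type} [CStarAlgebra A]

theorem sa (δ : ℝ) (q : A) : IsSelfAdjoint (algebraMap ℝ A δ + star q * q) := by
  refine IsSelfAdjoint.add ?_ (IsSelfAdjoint.star_mul_self q)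
  exact IsSelfAdjoint.algebraMap A (IsSelfAdjoint.all δ)

theorem spec (δ : ℝ) (q : A) : spectrum ℝ (algebraMap ℝ A δ + star q * q) ⊆ Set.Ici δ := by
  rw [← spectrum.singleton_add_eq]
  intro x hx
  rw [Set.singleton_add] at hx
  obtain ⟨y, hy, rfl⟩ := hx
  have h0 : 0 ≤ y := spectrum_star_mul_self_nonneg y hy
  simp only [Set.mem_Ici]
  linarith

theorem alg1 (q y z : A) : star (Complex.I • (Complex.I • z)) * q
        + star (Complex.I • y) * (Complex.I • y)
        + (star (Complex.I • y) * (Complex.I • y) + star q * (Complex.I • (Complex.I • z)))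
        = -(star z * q) + (2:ℝ) • (star y * y) - star q * z := by
  have h1 : star (Complex.I • y) = -(Complex.I • star y) := by
    rw [star_smul, RCLike.star_def, Complex.conj_I, neg_smul]
  have h2 : (Complex.I • (Complex.I • z)) = -z := by
    rw [smul_smul, Complex.I_mul_I, neg_smul, one_smul]
  rw [h1, h2, star_neg, neg_mul, neg_mul, mul_neg, smul_mul_smul_comm, Complex.I_mul_I, neg_smul,
    one_smul, two_smul]
  abel

theorem alg2 (q y : A) : star (Complex.I • y) * q + star q * (Complex.I • y)
        = -(Complex.I • (star y * q)) + Complex.I • (star q * y) := by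
  have h1 : star (Complex.I • y) = -(Complex.I • star y) := by
    rw [star_smul, RCLike.star_def, Complex.conj_I, neg_smul]
  rw [h1, neg_mul, smul_mul_assoc, mul_smul_comm]

/-- the general path -/
theorem gen (h1 : P_M1) (τ : A →L[ℂ] ℂ) (hτ : TrSt τ) (q q1 q2 : ℝ → A) (δ : ℝ) (hδ : 0 < δ)
    (hq : ∀ t, HasDerivAt q (q1 t) t) (hq1 : ∀ t, HasDerivAt q1 (q2 t) t) (t : ℝ) :
    HasDerivAt (fun s => (τ (CFC.log (algebraMap ℝ A δ + star (q s) * q s))).re)
      ((τ (Ring.inverse (algebraMap ℝ A δ + star (q t) * q t) *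
        (star (q1 t) * q t + star (q t) * q1 t))).re) t ∧
    HasDerivAt (fun s => (τ (Ring.inverse (algebraMap ℝ A δ + star (q s) * q s) *
        (star (q1 s) * q s + star (q s) * q1 s))).re)
      ((τ (Ring.inverse (algebraMap ℝ A δ + star (q t) * q t) *
        (star (q2 t) * q t + star (q1 t) * q1 t + (star (q1 t) * q1 t + star (q t) * q2 t)))).re
        - (τ (Ring.inverse (algebraMap ℝ A δ + star (q t) * q t) *
          (star (q1 t) * q t + star (q t) * q1 t) *
          Ring.inverse (algebraMap ℝ A δ + star (q t) * q t) *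
          (star (q1 t) * q t + star (q t) * q1 t))).re) t := by
  refine h1 A τ hτ (fun s => algebraMap ℝ A δ + star (q s) * q s)
    (fun s => star (q1 s) * q s + star (q s) * q1 s)
    (fun s => star (q2 s) * q s + star (q1 s) * q1 s + (star (q1 s) * q1 s + star (q s) * q2 s))
    δ hδ (fun s => ?_) (fun s => ?_) (fun s => ⟨sa δ _, spec δ _⟩) t
  · have e1 := ((hq s).star.mul (hq s)).const_add (algebraMap ℝ A δ)
    exact e1
  · exact ((hq1 s).star.mul (hq s)).add ((hq s).star.mul (hq1 s))

end

theorem t_MONO (h1 : P_M1) (h2 : P_M2) : P_MONO := by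
  intro A _ τ hτ Ψ hΨ hrot δ hδ
  -- derivatives
  have hd1 : Differentiable ℂ (deriv Ψ) := hΨ.deriv
  set Y : ℂ → A := fun w => w • deriv Ψ w with hY
  have hYd : Differentiable ℂ Y := differentiable_id.smul hd1
  set Z : ℂ → A := fun w => w • deriv Y w with hZ
  have hYd' : Differentiable ℂ (deriv Y) := hYd.deriv
  -- exponential paths
  have path : ∀ (c w0 : ℂ) (t : ℝ), HasDerivAt (fun s : ℝ => Complex.exp (s * c) * w0)
      (c * (Complex.exp (t * c) * w0)) t := by
    intro c w0 t
    have e0 : HasDerivAt (fun s : ℝ => (s : ℂ)) 1 t := Complex.ofRealCLM.hasDerivAt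
    have e1 := ((e0.mul_const c).cexp).mul_const w0
    refine e1.congr_deriv ?_
    ring
  have comp : ∀ (F : ℂ → A), Differentiable ℂ F → ∀ (c w0 : ℂ) (t : ℝ),
      HasDerivAt (fun s : ℝ => F (Complex.exp (s * c) * w0))
        (c • ((Complex.exp (t * c) * w0) • deriv F (Complex.exp (t * c) * w0))) t := by
    intro F hF c w0 t
    have e1 := (hF (Complex.exp (t * c) * w0)).hasDerivAt
    have e2 := e1.scomp t (path c w0 t)
    refine e2.congr_deriv ?_
    exact (smul_smul _ _ _).symm
  -- derivative formulas along `s ↦ exp(s c) w0`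
  have key : ∀ (c w0 : ℂ) (t : ℝ),
      HasDerivAt (fun s : ℝ => (τ (CFC.log (algebraMap ℝ A δ
          + star (Ψ (Complex.exp (s * c) * w0)) * Ψ (Complex.exp (s * c) * w0)))).re)
        ((τ (Ring.inverse (algebraMap ℝ A δ
            + star (Ψ (Complex.exp (t * c) * w0)) * Ψ (Complex.exp (t * c) * w0)) *
          (star (c • Y (Complex.exp (t * c) * w0)) * Ψ (Complex.exp (t * c) * w0)
            + star (Ψ (Complex.exp (t * c) * w0)) * (c • Y (Complex.exp (t * c) * w0))))).re) t ∧
      HasDerivAt (fun s : ℝ => (τ (Ring.inverse (algebraMap ℝ A δ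
            + star (Ψ (Complex.exp (s * c) * w0)) * Ψ (Complex.exp (s * c) * w0)) *
          (star (c • Y (Complex.exp (s * c) * w0)) * Ψ (Complex.exp (s * c) * w0)
            + star (Ψ (Complex.exp (s * c) * w0)) * (c • Y (Complex.exp (s * c) * w0))))).re)
        ((τ (Ring.inverse (algebraMap ℝ A δ
            + star (Ψ (Complex.exp (t * c) * w0)) * Ψ (Complex.exp (t * c) * w0)) *
          (star (c • (c • Z (Complex.exp (t * c) * w0))) * Ψ (Complex.exp (t * c) * w0)
            + star (c • Y (Complex.exp (t * c) * w0)) * (c • Y (Complex.exp (t * c) * w0))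
            + (star (c • Y (Complex.exp (t * c) * w0)) * (c • Y (Complex.exp (t * c) * w0))
            + star (Ψ (Complex.exp (t * c) * w0)) * (c • (c • Z (Complex.exp (t * c) * w0))))))).re
        - (τ (Ring.inverse (algebraMap ℝ A δ
            + star (Ψ (Complex.exp (t * c) * w0)) * Ψ (Complex.exp (t * c) * w0)) *
          (star (c • Y (Complex.exp (t * c) * w0)) * Ψ (Complex.exp (t * c) * w0)
            + star (Ψ (Complex.exp (t * c) * w0)) * (c • Y (Complex.exp (t * c) * w0))) *
          Ring.inverse (algebraMap ℝ A δ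
            + star (Ψ (Complex.exp (t * c) * w0)) * Ψ (Complex.exp (t * c) * w0)) *
          (star (c • Y (Complex.exp (t * c) * w0)) * Ψ (Complex.exp (t * c) * w0)
            + star (Ψ (Complex.exp (t * c) * w0)) * (c • Y (Complex.exp (t * c) * w0))))).re) t := by
    intro c w0 t
    exact gen h1 τ hτ (fun s => Ψ (Complex.exp (s * c) * w0))
      (fun s => c • Y (Complex.exp (s * c) * w0)) (fun s => c • (c • Z (Complex.exp (s * c) * w0)))
      δ hδ (fun s => comp Ψ hΨ c w0 s) (fun s => (comp Y hYd c w0 s).const_smul c) t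
  -- the second derivative of the rotation vanishes
  have rot : ∀ w : ℂ,
      (τ (Ring.inverse (algebraMap ℝ A δ + star (Ψ w) * Ψ w) *
        (-(star (Z w) * Ψ w) + (2:ℝ) • (star (Y w) * Y w) - star (Ψ w) * Z w))).re
      - (τ (Ring.inverse (algebraMap ℝ A δ + star (Ψ w) * Ψ w) *
          (-(Complex.I • (star (Y w) * Ψ w)) + Complex.I • (star (Ψ w) * Y w)) *
        Ring.inverse (algebraMap ℝ A δ + star (Ψ w) * Ψ w) *
          (-(Complex.I • (star (Y w) * Ψ w)) + Complex.I • (star (Ψ w) * Y w)))).re = 0 := by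
    intro w
    have k0 := fun t => (key Complex.I w t).1
    have k1 := (key Complex.I w 0).2
    have hc : (fun s : ℝ => (τ (CFC.log (algebraMap ℝ A δ
          + star (Ψ (Complex.exp (s * Complex.I) * w))
            * Ψ (Complex.exp (s * Complex.I) * w)))).re)
        = fun _ => (τ (CFC.log (algebraMap ℝ A δ + star (Ψ w) * Ψ w))).re := by
      funext s
      exact hrot δ s w hδ
    rw [hc] at k0
    have k2 := fun t : ℝ => (k0 t).unique (hasDerivAt_const t _)
    have k3 : (fun s : ℝ => (τ (Ring.inverse (algebraMap ℝ A δ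
            + star (Ψ (Complex.exp (s * Complex.I) * w)) * Ψ (Complex.exp (s * Complex.I) * w)) *
          (star (Complex.I • Y (Complex.exp (s * Complex.I) * w))
              * Ψ (Complex.exp (s * Complex.I) * w)
            + star (Ψ (Complex.exp (s * Complex.I) * w))
              * (Complex.I • Y (Complex.exp (s * Complex.I) * w))))).re) = fun _ => 0 := by
      funext s
      exact k2 s
    rw [k3] at k1
    have k4 := k1.unique (hasDerivAt_const (0 : ℝ) (0 : ℝ))
    have ew : Complex.exp (((0 : ℝ) : ℂ) * Complex.I) * w = w := by simp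
    rw [ew] at k4
    rw [alg1, alg2] at k4
    exact k4
  -- the function `v`
  set v : ℝ → ℝ := fun s => (τ (CFC.log (algebraMap ℝ A δ
          + star (Ψ (Complex.exp (s * 1) * 1)) * Ψ (Complex.exp (s * 1) * 1)))).re with hv
  set v' : ℝ → ℝ := fun s => (τ (Ring.inverse (algebraMap ℝ A δ
            + star (Ψ (Complex.exp (s * 1) * 1)) * Ψ (Complex.exp (s * 1) * 1)) *
          (star ((1 : ℂ) • Y (Complex.exp (s * 1) * 1)) * Ψ (Complex.exp (s * 1) * 1)
            + star (Ψ (Complex.exp (s * 1) * 1)) * ((1 : ℂ) • Y (Complex.exp (s * 1) * 1))))).re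
    with hv'
  have hvd : ∀ t, HasDerivAt v (v' t) t := fun t => (key 1 1 t).1
  have hv'd : ∀ t, DifferentiableAt ℝ v' t := fun t => (key 1 1 t).2.differentiableAt
  have hv'' : ∀ t, 0 ≤ deriv v' t := by
    intro t
    rw [(key 1 1 t).2.deriv]
    have m := h2 A τ hτ (Ψ (Complex.exp (t * 1) * 1)) (Y (Complex.exp (t * 1) * 1))
      (Z (Complex.exp (t * 1) * 1)) δ hδ
    rw [rot, add_zero] at m
    have e1 : ∀ (z q y : A), star z * q + star y * y + (star y * y + star q * z)
        = star z * q + (2:ℝ) • (star y * y) + star q * z := by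
      intro z q y
      rw [two_smul]; abel
    simp only [one_smul]
    rw [e1]
    exact m
  have hmono : Monotone v' := monotone_of_deriv_nonneg (fun t => hv'd t) hv''
  -- continuity at `0` along the real axis
  have hcont : ContinuousAt (fun s : ℝ => (τ (CFC.log (algebraMap ℝ A δ
          + star (Ψ s) * Ψ s))).re) 0 := by
    have lin : ∀ (F : ℂ → A), Differentiable ℂ F → ∀ t : ℝ,
        HasDerivAt (fun s : ℝ => F s) (deriv F t) t := by
      intro F hF t
      have e0 : HasDerivAt (fun s : ℝ => (s : ℂ)) 1 t := Complex.ofRealCLM.hasDerivAt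
      have e1 := (hF (t : ℂ)).hasDerivAt.scomp t e0
      refine e1.congr_deriv ?_
      exact one_smul _ _
    exact (gen h1 τ hτ (fun s : ℝ => Ψ s) (fun s : ℝ => deriv Ψ s)
      (fun s : ℝ => deriv (deriv Ψ) s) δ hδ (lin Ψ hΨ) (lin (deriv Ψ) hd1) 0).1.continuousAt
  have hlim : Tendsto v atBot (𝓝 (τ (CFC.log (algebraMap ℝ A δ + star (Ψ 0) * Ψ 0))).re) := by
    have e1 := hcont.tendsto.comp Real.tendsto_exp_atBot
    simp only [Complex.ofReal_zero] at e1
    refine e1.congr fun s => ?_
    simp only [hv, Function.comp, mul_one, Complex.ofReal_exp]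
  -- `v'` is nonnegative
  have hnn : ∀ t, 0 ≤ v' t := by
    intro t1
    by_contra hneg
    push Not at hneg
    have hlow : ∀ t, t ≤ t1 → v t1 - v' t1 * (t1 - t) ≤ v t := by
      intro t ht
      rcases ht.eq_or_lt with rfl | hlt
      · simp
      · obtain ⟨ξ, hξ, he⟩ := exists_hasDerivAt_eq_slope v v' hlt
          (fun x _ => (hvd x).continuousAt.continuousWithinAt) (fun x _ => hvd x)
        have h3 : v' ξ ≤ v' t1 := hmono hξ.2.le
        have h4 : 0 < t1 - t := by linarith
        have h5 : v t1 - v t = v' ξ * (t1 - t) := by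
          rw [he]; field_simp
        nlinarith
    have htop : Tendsto (fun t => v t1 - v' t1 * (t1 - t)) atBot atTop := by
      have e1 : Tendsto (fun t : ℝ => v' t1 * t) atBot atTop :=
        tendsto_id.const_mul_atBot_of_neg hneg
      have e2 := tendsto_atTop_add_const_right atBot (v t1 - v' t1 * t1) e1
      refine e2.congr fun t => ?_
      ring
    have htop' : Tendsto v atBot atTop :=
      tendsto_atTop_mono' _ ((eventually_le_atBot t1).mono hlow) htop
    exact not_tendsto_nhds_of_tendsto_atTop htop' _ hlim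
  have hvm : Monotone v := monotone_of_deriv_nonneg (fun t => (hvd t).differentiableAt)
    (fun t => by rw [(hvd t).deriv]; exact hnn t)
  have hfin : (τ (CFC.log (algebraMap ℝ A δ + star (Ψ 0) * Ψ 0))).re ≤ v 0 :=
    le_of_tendsto hlim ((eventually_le_atBot 0).mono fun t ht => hvm ht)
  have e0 : v 0 = (τ (CFC.log (algebraMap ℝ A δ + star (Ψ 1) * Ψ 1))).re := by
    simp [hv]
  rw [← e0]
  exact hfin

end Pool.Agent.W116.RO.Mono
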